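import Mathlib
import Pool.Agent.V1181.H10
import Pool.Agent.V1181.Lap

/-!
# Location of maximal stress
-/

set_option autoImplicit false

namespace Pool.Agent.Results.MP_f43ce7_an.MaxStress

open Pool.Agent.V1181
open Real Set Filter Topology InnerProductSpace Laplacian ComplexConjugate

noncomputable section

/-- The boundary arc in the closed first quadrant. -/
def Gam (Ω : Set ℂ) : Set ℂ := frontier Ω ∩ {z | 0 ≤ z.re ∧ 0 ≤ z.im}

/-- The boundary of `Ω` is of class `C²`: near every boundary point `Ω` is the superlevel set of a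
`C²` function with nonzero gradient. -/
def C2Boundary (Ω : Set ℂ) : Prop :=
  ∀ x ∈ frontier Ω, ∃ ρ : ℂ → ℝ, ContDiff ℝ 2 ρ ∧ ρ x = 0 ∧ gradient ρ x ≠ 0 ∧
    ∀ᶠ y in 𝓝 x, (y ∈ Ω ↔ 0 < ρ y)

def g (z : ℂ) : ℂ := -64 * z ^ 2 + 28 * z ^ 4 - 8 * z ^ 6 + z ^ 8

def g1 (z : ℂ) : ℂ := -128 * z + 112 * z ^ 3 - 48 * z ^ 5 + 8 * z ^ 7

def g2 (z : ℂ) : ℂ := -128 + 336 * z ^ 2 - 240 * z ^ 4 + 56 * z ^ 6

def ep : ℝ := 1 / 10000000

def u (z : ℂ) : ℝ := (1 - ‖z‖ ^ 2) / 2 + ep * (g z).re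

def Om : Set ℂ := {z | z ∈ Metric.ball (0 : ℂ) (7 / 5) ∧ 0 < u z}

/-! ### Polynomials in two real variables -/

def H (s D : ℝ) : ℝ :=
  -64 * D + 28 * (2 * D ^ 2 - s ^ 2) - 8 * (4 * D ^ 3 - 3 * D * s ^ 2)
    + (8 * D ^ 4 - 8 * D ^ 2 * s ^ 2 + s ^ 4)

def EE (s D : ℝ) : ℝ :=
  -128 * D + 112 * (2 * D ^ 2 - s ^ 2) - 48 * (4 * D ^ 3 - 3 * D * s ^ 2)
    + 8 * (8 * D ^ 4 - 8 * D ^ 2 * s ^ 2 + s ^ 4)

/-- `|z|^2`. -/
def sq (z : ℂ) : ℝ := z.re ^ 2 + z.im ^ 2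

def dd (z : ℂ) : ℝ := z.re ^ 2 - z.im ^ 2

theorem norm_sq_eq (z : ℂ) : ‖z‖ ^ 2 = sq z := by
  rw [← Complex.normSq_eq_norm_sq, Complex.normSq_apply, sq]
  ring

theorem re2 (z : ℂ) : (z ^ 2).re = dd z := by
  unfold dd
  simp only [pow_two, Complex.mul_re]

theorem im2 (z : ℂ) : (z ^ 2).im ^ 2 = sq z ^ 2 - dd z ^ 2 := by
  unfold dd sq
  simp only [pow_two, Complex.mul_im]
  ring

theorem g_re (z : ℂ) : (g z).re = H (sq z) (dd z) := by
  have h1 : g z = -64 * (z ^ 2) + 28 * (z ^ 2) ^ 2 - 8 * (z ^ 2) ^ 3 + (z ^ 2) ^ 4 := by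
    unfold g
    ring
  have h2 := re2 z
  have h3 := im2 z
  rw [h1]
  generalize z ^ 2 = w at *
  have e : (-64 * w + 28 * w ^ 2 - 8 * w ^ 3 + w ^ 4).re =
      -64 * w.re + 28 * (w.re ^ 2 - w.im ^ 2) - 8 * (w.re ^ 3 - 3 * w.re * w.im ^ 2)
        + (w.re ^ 4 - 6 * w.re ^ 2 * w.im ^ 2 + (w.im ^ 2) ^ 2) := by
    simp [pow_succ, Complex.mul_re, Complex.mul_im]
    ring
  rw [e, h3, h2]
  unfold H
  ring

theorem zg1_re (z : ℂ) : (z * g1 z).re = EE (sq z) (dd z) := by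
  have h1 : z * g1 z = -128 * (z ^ 2) + 112 * (z ^ 2) ^ 2 - 48 * (z ^ 2) ^ 3
      + 8 * (z ^ 2) ^ 4 := by
    unfold g1
    ring
  have h2 := re2 z
  have h3 := im2 z
  rw [h1]
  generalize z ^ 2 = w at *
  have e : (-128 * w + 112 * w ^ 2 - 48 * w ^ 3 + 8 * w ^ 4).re =
      -128 * w.re + 112 * (w.re ^ 2 - w.im ^ 2) - 48 * (w.re ^ 3 - 3 * w.re * w.im ^ 2)
        + 8 * (w.re ^ 4 - 6 * w.re ^ 2 * w.im ^ 2 + (w.im ^ 2) ^ 2) := by
    simp [pow_succ, Complex.mul_re, Complex.mul_im]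
    ring
  rw [e, h3, h2]
  unfold EE
  ring

theorem u_eq (z : ℂ) : u z = (1 - sq z) / 2 + ep * H (sq z) (dd z) := by
  unfold u
  rw [norm_sq_eq, g_re]

/-! ### Bounds -/

theorem norm_g (z : ℂ) (h : ‖z‖ ≤ 7 / 5) : ‖g z‖ ≤ 320 := by
  have h0 := norm_nonneg z
  have h1 : ‖g z‖ ≤ 64 * ‖z‖ ^ 2 + 28 * ‖z‖ ^ 4 + 8 * ‖z‖ ^ 6 + ‖z‖ ^ 8 := by
    unfold g
    refine (norm_add_le _ _).trans (add_le_add ((norm_sub_le _ _).trans (add_le_add
      ((norm_add_le _ _).trans (add_le_add ?_ ?_)) ?_)) ?_)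
    all_goals simp [norm_pow]
  have h2 : ‖z‖ ^ 2 ≤ 2 := by nlinarith
  have h4 : ‖z‖ ^ 4 ≤ 4 := by
    have : ‖z‖ ^ 4 = (‖z‖ ^ 2) ^ 2 := by ring
    rw [this]
    nlinarith [sq_nonneg ‖z‖]
  have h6 : ‖z‖ ^ 6 ≤ 8 := by
    have : ‖z‖ ^ 6 = ‖z‖ ^ 4 * ‖z‖ ^ 2 := by ring
    rw [this]
    have : 0 ≤ ‖z‖ ^ 2 := by positivity
    nlinarith
  have h8 : ‖z‖ ^ 8 ≤ 16 := by
    have : ‖z‖ ^ 8 = ‖z‖ ^ 4 * ‖z‖ ^ 4 := by ring
    rw [this]
    have : 0 ≤ ‖z‖ ^ 4 := by positivity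
    nlinarith
  linarith

theorem norm_g1 (z : ℂ) (h : ‖z‖ ≤ 7 / 5) : ‖g1 z‖ ≤ 1100 := by
  have h0 := norm_nonneg z
  have h1 : ‖g1 z‖ ≤ 128 * ‖z‖ + 112 * ‖z‖ ^ 3 + 48 * ‖z‖ ^ 5 + 8 * ‖z‖ ^ 7 := by
    unfold g1
    refine (norm_add_le _ _).trans (add_le_add ((norm_sub_le _ _).trans (add_le_add
      ((norm_add_le _ _).trans (add_le_add ?_ ?_)) ?_)) ?_)
    all_goals simp [norm_pow]
  have h3 : ‖z‖ ^ 3 ≤ (7 / 5) ^ 3 := by gcongr
  have h5 : ‖z‖ ^ 5 ≤ (7 / 5) ^ 5 := by gcongr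
  have h7 : ‖z‖ ^ 7 ≤ (7 / 5) ^ 7 := by gcongr
  norm_num at h3 h5 h7
  linarith

theorem norm_g2 (z : ℂ) (h : ‖z‖ ≤ 7 / 5) : ‖g2 z‖ ≤ 3000 := by
  have h0 := norm_nonneg z
  have h1 : ‖g2 z‖ ≤ 128 + 336 * ‖z‖ ^ 2 + 240 * ‖z‖ ^ 4 + 56 * ‖z‖ ^ 6 := by
    unfold g2
    refine (norm_add_le _ _).trans (add_le_add ((norm_sub_le _ _).trans (add_le_add
      ((norm_add_le _ _).trans (add_le_add ?_ ?_)) ?_)) ?_)
    all_goals simp [norm_pow]
  have h3 : ‖z‖ ^ 2 ≤ (7 / 5) ^ 2 := by gcongr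
  have h5 : ‖z‖ ^ 4 ≤ (7 / 5) ^ 4 := by gcongr
  have h7 : ‖z‖ ^ 6 ≤ (7 / 5) ^ 6 := by gcongr
  norm_num at h3 h5 h7
  linarith

/-! ### Derivatives -/

theorem g_deriv (z : ℂ) : HasDerivAt g (g1 z) z := by
  have h := ((((hasDerivAt_pow 2 z).const_mul (-64)).add ((hasDerivAt_pow 4 z).const_mul 28)).sub
    ((hasDerivAt_pow 6 z).const_mul 8)).add (hasDerivAt_pow 8 z)
  refine h.congr_deriv ?_
  unfold g1
  norm_num
  ring

theorem g1_deriv (z : ℂ) : HasDerivAt g1 (g2 z) z := by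
  have h := ((((hasDerivAt_id z).const_mul (-128)).add ((hasDerivAt_pow 3 z).const_mul 112)).sub
    ((hasDerivAt_pow 5 z).const_mul 48)).add ((hasDerivAt_pow 7 z).const_mul 8)
  refine h.congr_deriv ?_
  unfold g2
  norm_num
  ring

theorem u_smooth : ContDiff ℝ (⊤ : ℕ∞) u := by
  have h1 : ContDiff ℝ (⊤ : ℕ∞) fun z : ℂ => ‖z‖ ^ 2 := contDiff_norm_sq ℝ
  have h2 : ContDiff ℝ (⊤ : ℕ∞) g := by
    unfold g
    fun_prop
  have h3 : ContDiff ℝ (⊤ : ℕ∞) fun z => (g z).re := Complex.reCLM.contDiff.comp h2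
  unfold u
  exact ((contDiff_const.sub h1).div_const 2).add (contDiff_const.mul h3)

theorem u_grad (z : ℂ) : HasGradientAt u (-z + (ep : ℂ) * conj (g1 z)) z := by
  rw [hasGradientAt_iff_hasFDerivAt]
  have h1 : HasFDerivAt (fun z : ℂ => ‖z‖ ^ 2) (2 • innerSL ℝ z) z :=
    (hasStrictFDerivAt_norm_sq z).hasFDerivAt
  have h2 := Complex.reCLM.hasFDerivAt.comp z ((g_deriv z).hasFDerivAt.restrictScalars ℝ)
  have h3 := ((h1.const_sub 1).const_mul (1 / 2)).add (h2.const_mul ep)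
  have e : u = fun z => 1 / 2 * (1 - ‖z‖ ^ 2) + ep * (Complex.reCLM ∘ g) z := by
    funext z
    simp [u]
    ring
  rw [e]
  refine h3.congr_fderiv ?_
  ext w
  simp [Complex.inner]
  ring

theorem lap_u (z : ℂ) : Δ u z = -2 := by
  have h1 : ContDiff ℝ 2 fun z : ℂ => (1 - ‖z‖ ^ 2) / 2 :=
    ((contDiff_const.sub (contDiff_norm_sq ℝ)).div_const 2)
  have h2 : HarmonicAt (fun z => (g z).re) z := by
    refine AnalyticAt.harmonicAt_re ?_
    unfold g
    fun_prop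
  have h3 : HarmonicAt (ep • fun z => (g z).re) z := h2.const_smul
  have h4 := ContDiffAt.laplacian_add (h1.contDiffAt (x := z)) h3.1
  have e : u = (fun z : ℂ => (1 - ‖z‖ ^ 2) / 2) + ep • fun z => (g z).re := by
    funext z
    simp [u]
  have hd : ∀ s : ℝ, HasDerivAt (fun s : ℝ => (1 - s) / 2) (-1 / 2) s := fun s =>
    ((hasDerivAt_id s).const_sub 1).div_const 2
  have h5 : Δ (fun y : ℂ => ((1 - ‖y‖ ^ 2) / 2 : ℝ)) z = -2 := by
    rw [lap_radial (F := fun s => (1 - s) / 2) (F' := fun _ => -1 / 2) (F'' := 0)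
      (by fun_prop) (Eventually.of_forall hd) (hasDerivAt_const _ _)]
    rw [Complex.finrank_real_complex]
    norm_num
  rw [e, h4, h5, h3.2.self_of_nhds]
  simp

theorem stress (z : ℂ) : ‖gradient u z‖ ^ 2 = sq z - 2 * ep * EE (sq z) (dd z)
    + ep ^ 2 * ‖g1 z‖ ^ 2 := by
  rw [(u_grad z).gradient, ← zg1_re, ← norm_sq_eq, ← Complex.normSq_eq_norm_sq,
    ← Complex.normSq_eq_norm_sq, ← Complex.normSq_eq_norm_sq]
  simp only [Complex.normSq_apply, Complex.add_re, Complex.add_im, Complex.mul_re, Complex.mul_im,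
    Complex.neg_re, Complex.neg_im, Complex.conj_re, Complex.conj_im, Complex.ofReal_re,
    Complex.ofReal_im]
  ring

/-! ### Concavity -/

theorem mem_ball_iff {z : ℂ} : z ∈ Metric.ball (0 : ℂ) (7 / 5) ↔ ‖z‖ < 7 / 5 := by simp

theorem u_concave : ConcaveOn ℝ (Metric.ball (0 : ℂ) (7 / 5)) u := by
  refine ⟨convex_ball _ _, ?_⟩
  intro x hx y hy a b ha hb hab
  set d := y - x with hd
  have hline : ∀ t ∈ Icc (0 : ℝ) 1, ‖x + (t : ℂ) * d‖ < 7 / 5 := by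
    intro t ht
    have h1 : x + (t : ℂ) * d = (1 - t) • x + t • y := by
      rw [hd, Complex.real_smul, Complex.real_smul]
      push_cast
      ring
    rw [h1, ← mem_ball_iff]
    exact (convex_ball (0 : ℂ) (7 / 5)) hx hy (by linarith [ht.2]) ht.1 (by ring)
  set f : ℝ → ℝ := fun t => (1 - (‖x‖ ^ 2 + 2 * (t * inner ℝ x d) + t ^ 2 * ‖d‖ ^ 2)) / 2
    + ep * (g (x + (t : ℂ) * d)).re with hf
  set f' : ℝ → ℝ := fun t => -(inner ℝ x d + t * ‖d‖ ^ 2)
    + ep * (g1 (x + (t : ℂ) * d) * d).re with hf'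
  set f'' : ℝ → ℝ := fun t => -‖d‖ ^ 2 + ep * (g2 (x + (t : ℂ) * d) * d * d).re with hf''
  have hfu : ∀ t : ℝ, f t = u (x + (t : ℂ) * d) := by
    intro t
    have h1 : ‖x + (t : ℂ) * d‖ ^ 2 = ‖x‖ ^ 2 + 2 * (t * inner ℝ x d) + t ^ 2 * ‖d‖ ^ 2 := by
      rw [← Complex.real_smul, norm_add_sq_real, inner_smul_right, norm_smul, mul_pow,
        Real.norm_eq_abs, sq_abs]
    simp only [hf, u, h1]
  have hl : ∀ w : ℂ, HasDerivAt (fun w : ℂ => x + w * d) d w := fun w => by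
    have := ((hasDerivAt_id w).mul_const d).const_add x
    rw [one_mul] at this
    exact this
  have d1 : ∀ t : ℝ, HasDerivAt f (f' t) t := by
    intro t
    have h1 : HasDerivAt (fun w : ℂ => g (x + w * d)) (g1 (x + (t : ℂ) * d) * d) (t : ℂ) :=
      (g_deriv _).comp (t : ℂ) (hl t)
    have h2 := h1.real_of_complex
    have h3 : HasDerivAt (fun t : ℝ => (1 - (‖x‖ ^ 2 + 2 * (t * inner ℝ x d)
        + t ^ 2 * ‖d‖ ^ 2)) / 2) (-(inner ℝ x d + t * ‖d‖ ^ 2)) t := by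
      have h4 := (((((hasDerivAt_id t).mul_const (inner ℝ x d)).const_mul 2).const_add
        (‖x‖ ^ 2)).add ((hasDerivAt_pow 2 t).mul_const (‖d‖ ^ 2))).const_sub 1
      refine (h4.div_const 2).congr_deriv ?_
      norm_num
      ring
    exact h3.add (h2.const_mul ep)
  have d2 : ∀ t : ℝ, HasDerivAt f' (f'' t) t := by
    intro t
    have h1 : HasDerivAt (fun w : ℂ => g1 (x + w * d) * d) (g2 (x + (t : ℂ) * d) * d * d)
        (t : ℂ) := ((g1_deriv _).comp (t : ℂ) (hl t)).mul_const d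
    have h2 := h1.real_of_complex
    have h3 : HasDerivAt (fun t : ℝ => -(inner ℝ x d + t * ‖d‖ ^ 2)) (-‖d‖ ^ 2) t := by
      have h4 := (((hasDerivAt_id t).mul_const (‖d‖ ^ 2)).const_add (inner ℝ x d)).neg
      refine h4.congr_deriv ?_
      ring
    exact h3.add (h2.const_mul ep)
  have hconc : ConcaveOn ℝ (Icc (0 : ℝ) 1) f := by
    refine concaveOn_of_hasDerivWithinAt2_nonpos (convex_Icc 0 1)
      (fun t _ => (d1 t).continuousAt.continuousWithinAt) (fun t _ => (d1 t).hasDerivWithinAt)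
      (fun t _ => (d2 t).hasDerivWithinAt) (fun t ht => ?_)
    rw [interior_Icc] at ht
    have h1 := hline t ⟨ht.1.le, ht.2.le⟩
    have h2 := norm_g2 _ h1.le
    have h3 : (g2 (x + (t : ℂ) * d) * d * d).re ≤ 3000 * ‖d‖ ^ 2 := by
      refine (Complex.re_le_norm _).trans ?_
      rw [norm_mul, norm_mul]
      have h4 : 0 ≤ ‖d‖ ^ 2 := by positivity
      nlinarith
    have h5 : ep * (g2 (x + (t : ℂ) * d) * d * d).re ≤ ep * (3000 * ‖d‖ ^ 2) := by
      have : 0 ≤ ep := by norm_num [ep]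
      gcongr
    have h6 : ep * (3000 * ‖d‖ ^ 2) ≤ ‖d‖ ^ 2 := by
      have h4 : 0 ≤ ‖d‖ ^ 2 := by positivity
      norm_num [ep]
      linarith
    simp only [hf'']
    linarith
  have h1 := hconc.2 (show (0 : ℝ) ∈ Icc (0 : ℝ) 1 by simp) (show (1 : ℝ) ∈ Icc (0 : ℝ) 1 by simp)
    ha hb hab
  rw [hfu, hfu, hfu] at h1
  have e1 : x + ((a • (0 : ℝ) + b • (1 : ℝ) : ℝ) : ℂ) * d = a • x + b • y := by
    have : a = 1 - b := by linarith
    rw [hd, Complex.real_smul, Complex.real_smul, this]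
    simp
    ring
  have e2 : x + ((0 : ℝ) : ℂ) * d = x := by simp
  have e3 : x + ((1 : ℝ) : ℂ) * d = y := by simp [hd]
  rw [e1, e2, e3] at h1
  exact h1

/-! ### The domain -/

theorem u_cont : Continuous u := u_smooth.continuous

theorem Om_open : IsOpen Om :=
  Metric.isOpen_ball.inter (isOpen_lt continuous_const u_cont)

theorem Om_convex : Convex ℝ Om := u_concave.convex_gt 0

theorem Om_bounded : Bornology.IsBounded Om :=
  Metric.isBounded_ball.subset fun _ hz => hz.1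

theorem u_zero : u 0 = 1 / 2 := by
  simp [u, g]

theorem zero_mem : (0 : ℂ) ∈ Om := ⟨by simp, by rw [u_zero]; norm_num⟩

theorem u_neg_out {z : ℂ} (h : ‖z‖ = 7 / 5) : u z < 0 := by
  have h1 := norm_g z h.le
  have h2 := (Complex.re_le_norm (g z)).trans h1
  unfold u
  rw [h]
  have h3 : ep * (g z).re ≤ ep * 320 := by
    have : 0 ≤ ep := by norm_num [ep]
    gcongr
  norm_num [ep] at h3 ⊢
  linarith

theorem frontier_iff {z : ℂ} : z ∈ frontier Om ↔ ‖z‖ < 7 / 5 ∧ u z = 0 := by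
  rw [frontier_eq_closure_inter_closure, closure_compl, Om_open.interior_eq]
  constructor
  · rintro ⟨h1, h2⟩
    have h3 : z ∈ {w : ℂ | ‖w‖ ≤ 7 / 5 ∧ 0 ≤ u w} := by
      have hc : IsClosed {w : ℂ | ‖w‖ ≤ 7 / 5 ∧ 0 ≤ u w} :=
        (isClosed_le continuous_norm continuous_const).inter (isClosed_le continuous_const u_cont)
      have hsub : Om ⊆ {w : ℂ | ‖w‖ ≤ 7 / 5 ∧ 0 ≤ u w} := fun w hw =>
        ⟨(mem_ball_iff.1 hw.1).le, hw.2.le⟩
      exact closure_minimal hsub hc h1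
    have h4 : ‖z‖ < 7 / 5 := by
      refine lt_of_le_of_ne h3.1 fun h => ?_
      have := u_neg_out h
      linarith [h3.2]
    refine ⟨h4, le_antisymm ?_ h3.2⟩
    by_contra hcon
    exact h2 ⟨mem_ball_iff.2 h4, not_le.1 hcon⟩
  · rintro ⟨h1, h2⟩
    refine ⟨?_, fun h => by linarith [h.2]⟩
    have h3 : Tendsto (fun t : ℝ => (t : ℂ) * z) (𝓝[<] 1) (𝓝 z) := by
      have : ContinuousAt (fun t : ℝ => (t : ℂ) * z) 1 := by fun_prop
      have h4 := this.tendsto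
      simp only [Complex.ofReal_one, one_mul] at h4
      exact h4.mono_left nhdsWithin_le_nhds
    refine mem_closure_of_tendsto h3 ?_
    have h4 : ∀ᶠ t : ℝ in 𝓝[<] 1, 0 < t := by
      filter_upwards [mem_nhdsWithin_of_mem_nhds (Ioi_mem_nhds (zero_lt_one (α := ℝ)))] with t ht
      exact ht
    filter_upwards [h4, self_mem_nhdsWithin] with t h5 h6
    have h6' : t < 1 := h6
    have h7 := u_concave.2 (mem_ball_iff.2 h1) (show (0 : ℂ) ∈ Metric.ball (0 : ℂ) (7 / 5) by simp)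
      h5.le (show 0 ≤ 1 - t by linarith) (by ring)
    rw [smul_zero, add_zero, Complex.real_smul, h2, u_zero, smul_zero, zero_add,
      smul_eq_mul] at h7
    refine ⟨?_, ?_⟩
    · rw [mem_ball_iff, norm_mul, Complex.norm_real, Real.norm_of_nonneg h5.le]
      nlinarith [norm_nonneg z]
    · have : 0 < (1 - t) * (1 / 2) := by
        have : 0 < 1 - t := by linarith
        positivity
      linarith

theorem frontier_sq {z : ℂ} (h : z ∈ frontier Om) :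
    sq z = 1 + 2 * ep * H (sq z) (dd z) ∧ |sq z - 1| ≤ 1 / 10000 := by
  obtain ⟨h1, h2⟩ := frontier_iff.1 h
  rw [u_eq] at h2
  have h3 : sq z = 1 + 2 * ep * H (sq z) (dd z) := by linarith
  refine ⟨h3, ?_⟩
  have h4 : |H (sq z) (dd z)| ≤ 320 := by
    rw [← g_re]
    exact (Complex.abs_re_le_norm _).trans (norm_g z h1.le)
  have h5 : sq z - 1 = 2 * ep * H (sq z) (dd z) := by linarith
  rw [h5, abs_mul, abs_of_nonneg (by norm_num [ep])]
  norm_num [ep]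
  linarith

/-! ### Inequalities for the polynomials -/

theorem H_axis {s D : ℝ} (hs : |s - 1| ≤ 1 / 10000) (h1 : -s ≤ D) (h2 : D < s) :
    H s s < H s D := by
  rw [abs_le] at hs
  have e : H s D - H s s = (s - D) * (8 + 8 * (1 - D) ^ 3
      + (s - 1) * (-48 + 32 * D + 8 * s - 8 * D ^ 2)) := by
    unfold H
    ring
  have hD : D ^ 2 ≤ 4 := by nlinarith
  have h3 : -1 ≤ (1 - D) ^ 3 * 1000 := by
    have h4 : -1 / 10000 ≤ 1 - D := by linarith
    have h5 : 0 ≤ (1 - D) ^ 2 := by positivity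
    have h6 : (1 - D) ^ 2 ≤ 5 := by nlinarith
    have h7 : (1 - D) ^ 3 = (1 - D) * (1 - D) ^ 2 := by ring
    rw [h7]
    nlinarith
  have h4 : |(s - 1) * (-48 + 32 * D + 8 * s - 8 * D ^ 2)| ≤ 1 / 10000 * 300 := by
    rw [abs_mul]
    gcongr
    · rw [abs_le]; exact hs
    · rw [abs_le]
      constructor <;> nlinarith
  rw [abs_le] at h4
  have h5 : 0 < 8 + 8 * (1 - D) ^ 3 + (s - 1) * (-48 + 32 * D + 8 * s - 8 * D ^ 2) := by
    linarith [h4.1]
  have h6 : 0 < s - D := by linarith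
  have := mul_pos h6 h5
  linarith

theorem H_axis' {s D : ℝ} (h1 : -s < D) (h2 : D ≤ s) :
    H s D < H s (-s) := by
  have e : H s (-s) - H s D = (s + D) * (64 + 56 * (s - D) + 8 * (s - 2 * D) ^ 2
      + 8 * ((s - D) * D ^ 2)) := by
    unfold H
    ring
  have h3 : 0 ≤ s - D := by linarith
  have h4 : 0 ≤ (s - D) * D ^ 2 := by positivity
  have h5 : 0 < 64 + 56 * (s - D) + 8 * (s - 2 * D) ^ 2 + 8 * ((s - D) * D ^ 2) := by positivity
  have h6 : 0 < s + D := by linarith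
  have := mul_pos h6 h5
  linarith

theorem axis_mono {s t : ℝ} (hs : |s - 1| ≤ 1 / 10000) (ht : |t - 1| ≤ 1 / 10000) (h : s < t) :
    (1 - t) / 2 + ep * H t t < (1 - s) / 2 + ep * H s s := by
  rw [abs_le] at hs ht
  have e : (1 - s) / 2 + ep * H s s - ((1 - t) / 2 + ep * H t t) = (t - s) * (1 / 2 - ep *
      (-64 + 28 * (s + t) - 8 * (s ^ 2 + s * t + t ^ 2) + (s + t) * (s ^ 2 + t ^ 2))) := by
    unfold H
    ring
  have h1 : -64 + 28 * (s + t) - 8 * (s ^ 2 + s * t + t ^ 2) + (s + t) * (s ^ 2 + t ^ 2) ≤ 1000 := by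
    have h2 : s ^ 2 ≤ 4 := by nlinarith
    have h3 : t ^ 2 ≤ 4 := by nlinarith
    have h4 : (s + t) * (s ^ 2 + t ^ 2) ≤ 4 * 8 := by
      have : 0 ≤ s ^ 2 + t ^ 2 := by positivity
      gcongr <;> linarith
    have h5 : 0 ≤ s * t := by nlinarith
    nlinarith [sq_nonneg s, sq_nonneg t]
  have h2 : ep * (-64 + 28 * (s + t) - 8 * (s ^ 2 + s * t + t ^ 2)
      + (s + t) * (s ^ 2 + t ^ 2)) ≤ ep * 1000 := by
    have : 0 ≤ ep := by norm_num [ep]
    gcongr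
  have h3 : ep * 1000 < 1 / 2 := by norm_num [ep]
  have h4 : 0 < t - s := by linarith
  have := mul_pos h4 (show 0 < 1 / 2 - ep * (-64 + 28 * (s + t) - 8 * (s ^ 2 + s * t + t ^ 2)
      + (s + t) * (s ^ 2 + t ^ 2)) by linarith)
  linarith

theorem axis_mono' {s t : ℝ} (hs : |s - 1| ≤ 1 / 10000) (ht : |t - 1| ≤ 1 / 10000) (h : s < t) :
    (1 - t) / 2 + ep * H t (-t) < (1 - s) / 2 + ep * H s (-s) := by
  rw [abs_le] at hs ht
  have e : (1 - s) / 2 + ep * H s (-s) - ((1 - t) / 2 + ep * H t (-t)) = (t - s) * (1 / 2 - ep *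
      (64 + 28 * (s + t) + 8 * (s ^ 2 + s * t + t ^ 2) + (s + t) * (s ^ 2 + t ^ 2))) := by
    unfold H
    ring
  have h1 : 64 + 28 * (s + t) + 8 * (s ^ 2 + s * t + t ^ 2) + (s + t) * (s ^ 2 + t ^ 2) ≤ 1000 := by
    have h2 : s ^ 2 ≤ 4 := by nlinarith
    have h3 : t ^ 2 ≤ 4 := by nlinarith
    have h4 : (s + t) * (s ^ 2 + t ^ 2) ≤ 4 * 8 := by
      have : 0 ≤ s ^ 2 + t ^ 2 := by positivity
      gcongr <;> linarith
    have h5 : s * t ≤ 4 := by nlinarith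
    nlinarith [sq_nonneg s, sq_nonneg t]
  have h2 : ep * (64 + 28 * (s + t) + 8 * (s ^ 2 + s * t + t ^ 2)
      + (s + t) * (s ^ 2 + t ^ 2)) ≤ ep * 1000 := by
    have : 0 ≤ ep := by norm_num [ep]
    gcongr
  have h3 : ep * 1000 < 1 / 2 := by norm_num [ep]
  have h4 : 0 < t - s := by linarith
  have := mul_pos h4 (show 0 < 1 / 2 - ep * (64 + 28 * (s + t) + 8 * (s ^ 2 + s * t + t ^ 2)
      + (s + t) * (s ^ 2 + t ^ 2)) by linarith)
  linarith

/-- `H - EE`, the first order part of the stress. -/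
theorem G_eq (s D : ℝ) : H s D - EE s D = (77 - 56 * D - 112 * D ^ 2 + 160 * D ^ 3 - 56 * D ^ 4)
    + (s ^ 2 - 1) * (84 - 120 * D + 56 * D ^ 2 - 7 * (s ^ 2 + 1)) := by
  unfold H EE
  ring

theorem G_err {s D : ℝ} (hs : |s - 1| ≤ 1 / 10000) (h1 : -s ≤ D) (h2 : D ≤ s) :
    |(s ^ 2 - 1) * (84 - 120 * D + 56 * D ^ 2 - 7 * (s ^ 2 + 1))| ≤ 1 / 10 := by
  rw [abs_le] at hs
  have hD : D ^ 2 ≤ 2 := by nlinarith
  have hs2 : s ^ 2 ≤ 2 := by nlinarith
  have h3 : |s ^ 2 - 1| ≤ 3 / 10000 := by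
    rw [abs_le]
    constructor <;> nlinarith
  have h4 : |84 - 120 * D + 56 * D ^ 2 - 7 * (s ^ 2 + 1)| ≤ 333 := by
    rw [abs_le]
    constructor <;> nlinarith [sq_nonneg D, sq_nonneg s]
  rw [abs_mul]
  refine (mul_le_mul h3 h4 (abs_nonneg _) (by norm_num)).trans ?_
  norm_num

theorem G_upper {s D : ℝ} (hs : |s - 1| ≤ 1 / 10000) (h1 : -1 / 20 ≤ D) (h2 : D ≤ s) :
    H s D - EE s D ≤ 80 := by
  have hs' := abs_le.1 hs
  have h3 := (abs_le.1 (G_err hs (by linarith) h2)).2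
  rw [G_eq]
  have h4 : 77 - 56 * D - 112 * D ^ 2 + 160 * D ^ 3 - 56 * D ^ 4 ≤ 77 + 28 / 10 := by
    rcases le_total 0 D with h | h
    · have h5 : 0 ≤ D * (56 + 112 * D - 160 * D ^ 2 + 56 * D ^ 3) := by
        refine mul_nonneg h ?_
        have h6 : 0 ≤ D ^ 3 := by positivity
        nlinarith
      nlinarith
    · have h5 : D ^ 3 ≤ 0 := by
        have : D ^ 3 = D * D ^ 2 := by ring
        rw [this]
        exact mul_nonpos_of_nonpos_of_nonneg h (sq_nonneg D)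
      nlinarith [sq_nonneg D, sq_nonneg (D ^ 2)]
  linarith

theorem G_lower {s D : ℝ} (hs : |s - 1| ≤ 1 / 10000) (hD : D = -(s / 5)) :
    82 ≤ H s D - EE s D := by
  have hs' := abs_le.1 hs
  have h3 := (abs_le.1 (G_err (D := D) hs (by linarith) (by linarith))).1
  rw [G_eq]
  have h4 : 822 / 10 ≤ 77 - 56 * D - 112 * D ^ 2 + 160 * D ^ 3 - 56 * D ^ 4 := by
    have h5 : -20002 / 100000 ≤ D := by linarith
    have h6 : D ≤ -19998 / 100000 := by linarith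
    have h7 : D ^ 2 ≤ 401 / 10000 := by nlinarith
    have h8 : -81 / 10000 ≤ D ^ 3 := by
      have : D ^ 3 = D * D ^ 2 := by ring
      rw [this]
      nlinarith [sq_nonneg D]
    have h9 : D ^ 4 ≤ 17 / 10000 := by
      have : D ^ 4 = D ^ 2 * D ^ 2 := by ring
      rw [this]
      nlinarith [sq_nonneg D]
    linarith
  linarith

/-! ### Points of the boundary -/

/-- Every ray from the origin meets the boundary. -/
theorem exists_ray {e : ℂ} (he : ‖e‖ = 1) : ∃ r : ℝ, 0 < r ∧ (r : ℂ) * e ∈ frontier Om := by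
  have hc : Continuous fun r : ℝ => u ((r : ℂ) * e) := u_cont.comp (by fun_prop)
  have h1 : u (((7 / 5 : ℝ) : ℂ) * e) < 0 := u_neg_out (by
    rw [norm_mul, he, Complex.norm_real, mul_one]
    norm_num)
  have h2 : 0 < u (((0 : ℝ) : ℂ) * e) := by
    rw [Complex.ofReal_zero, zero_mul, u_zero]
    norm_num
  obtain ⟨r, hr, h3⟩ := intermediate_value_Icc' (a := (0 : ℝ)) (b := 7 / 5) (by norm_num)
    hc.continuousOn ⟨h1.le, h2.le⟩
  have h3' : u ((r : ℂ) * e) = 0 := h3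
  have hr0 : r ≠ 0 := by
    rintro rfl
    linarith
  have hr1 : r ≠ 7 / 5 := by
    rintro rfl
    linarith
  have hr0' : 0 < r := lt_of_le_of_ne hr.1 (Ne.symm hr0)
  refine ⟨r, hr0', frontier_iff.2 ⟨?_, h3'⟩⟩
  rw [norm_mul, he, Complex.norm_real, mul_one, Real.norm_of_nonneg hr.1]
  exact lt_of_le_of_ne hr.2 hr1

theorem sq_nonneg' (z : ℂ) : 0 ≤ sq z := by
  unfold sq
  positivity

theorem dd_le (z : ℂ) : dd z ≤ sq z := by
  unfold dd sq
  nlinarith [sq_nonneg z.im]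

theorem neg_le_dd (z : ℂ) : -sq z ≤ dd z := by
  unfold dd sq
  nlinarith [sq_nonneg z.re]

theorem norm_lt_of_sq {z w : ℂ} (h : sq z < sq w) : ‖z‖ < ‖w‖ := by
  rw [← norm_sq_eq, ← norm_sq_eq] at h
  exact lt_of_pow_lt_pow_left₀ 2 (norm_nonneg _) h

theorem stress_frontier {z : ℂ} (h : z ∈ frontier Om) : ‖gradient u z‖ ^ 2 =
    1 + 2 * ep * (H (sq z) (dd z) - EE (sq z) (dd z)) + ep ^ 2 * ‖g1 z‖ ^ 2 := by
  rw [stress]
  have := (frontier_sq h).1
  linarith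

theorem g_conj (z : ℂ) : g (conj z) = conj (g z) := by
  unfold g
  simp [map_ofNat]

theorem g1_conj (z : ℂ) : g1 (conj z) = conj (g1 z) := by
  unfold g1
  simp [map_ofNat]

theorem u_conj (z : ℂ) : u (conj z) = u z := by
  rw [u_eq, u_eq]
  simp [sq, dd]

theorem u_neg (z : ℂ) : u (-z) = u z := by
  rw [u_eq, u_eq]
  simp [sq, dd]

theorem grad_conj (z : ℂ) : ‖gradient u (conj z)‖ = ‖gradient u z‖ := by
  rw [(u_grad z).gradient, (u_grad _).gradient, g1_conj]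
  have : -conj z + (ep : ℂ) * conj (conj (g1 z)) = conj (-z + (ep : ℂ) * conj (g1 z)) := by
    simp
  rw [this, RCLike.norm_conj]

theorem grad_neg (z : ℂ) : ‖gradient u (-z)‖ = ‖gradient u z‖ := by
  rw [(u_grad z).gradient, (u_grad _).gradient]
  have : -(-z) + (ep : ℂ) * conj (g1 (-z)) = -(-z + (ep : ℂ) * conj (g1 z)) := by
    have : g1 (-z) = -g1 z := by
      unfold g1
      ring
    rw [this]
    simp
    ring
  rw [this, norm_neg]

/-- Every boundary point has a mirror image on `Γ` with the same stress. -/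
theorem exists_mirror {z : ℂ} (h : z ∈ frontier Om) : ∃ p ∈ Gam Om,
    ‖gradient u p‖ = ‖gradient u z‖ := by
  obtain ⟨h1, h2⟩ := frontier_iff.1 h
  have hc : ∀ {w : ℂ}, w ∈ frontier Om → conj w ∈ frontier Om := fun {w} hw => by
    obtain ⟨h3, h4⟩ := frontier_iff.1 hw
    exact frontier_iff.2 ⟨by rwa [RCLike.norm_conj], by rwa [u_conj]⟩
  have hn : ∀ {w : ℂ}, w ∈ frontier Om → -w ∈ frontier Om := fun {w} hw => by
    obtain ⟨h3, h4⟩ := frontier_iff.1 hw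
    exact frontier_iff.2 ⟨by rwa [norm_neg], by rwa [u_neg]⟩
  rcases le_total 0 z.re with hx | hx
  · rcases le_total 0 z.im with hy | hy
    · exact ⟨z, ⟨h, hx, hy⟩, rfl⟩
    · exact ⟨conj z, ⟨hc h, by simpa using hx, by simpa using hy⟩, grad_conj z⟩
  · rcases le_total 0 z.im with hy | hy
    · exact ⟨-conj z, ⟨hn (hc h), by simpa using hx, by simpa using hy⟩, by
        rw [grad_neg, grad_conj]⟩
    · exact ⟨-z, ⟨hn h, by simpa using hx, by simpa using hy⟩, grad_neg z⟩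

/-- Points of maximal stress are near the farthest point. -/
theorem max_dd {p : ℂ} (hp : p ∈ frontier Om)
    (hmax : ∀ z ∈ frontier Om, ‖gradient u z‖ ≤ ‖gradient u p‖) : dd p < -1 / 20 := by
  by_contra hcon
  push Not at hcon
  -- a comparison point
  have he : ‖(⟨√(2 / 5), √(3 / 5)⟩ : ℂ)‖ = 1 := by
    have h1 : ‖(⟨√(2 / 5), √(3 / 5)⟩ : ℂ)‖ ^ 2 = 1 := by
      rw [norm_sq_eq]
      unfold sq
      simp only
      rw [Real.sq_sqrt (by norm_num), Real.sq_sqrt (by norm_num)]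
      norm_num
    have h2 := norm_nonneg (⟨√(2 / 5), √(3 / 5)⟩ : ℂ)
    nlinarith
  obtain ⟨r, hr, hq⟩ := exists_ray he
  set q : ℂ := (r : ℂ) * ⟨√(2 / 5), √(3 / 5)⟩ with hqdef
  have h2 : dd q = -(sq q / 5) := by
    have e1 : q.re = r * √(2 / 5) := by simp [hqdef]
    have e2 : q.im = r * √(3 / 5) := by simp [hqdef]
    unfold dd sq
    rw [e1, e2, mul_pow, mul_pow, Real.sq_sqrt (by norm_num), Real.sq_sqrt (by norm_num)]
    ring
  have h3 := G_lower (frontier_sq hq).2 h2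
  have h4 := G_upper (frontier_sq hp).2 hcon (dd_le p)
  have h5 := hmax q hq
  have h6 : ‖gradient u q‖ ^ 2 ≤ ‖gradient u p‖ ^ 2 := by gcongr
  rw [stress_frontier hq, stress_frontier hp] at h6
  have h7 := norm_g1 p (frontier_iff.1 hp).1.le
  have h8 : ‖g1 p‖ ^ 2 ≤ 1100 ^ 2 := by gcongr
  have h9 : 0 ≤ ‖g1 q‖ ^ 2 := by positivity
  norm_num [ep] at h6
  nlinarith

/-- There is a bounded convex domain `Ω`, symmetric with respect to both axes, not a disc, with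
`C²` boundary, for which the points of maximal stress are closer to the farthest point than to the
nearest point of the boundary. -/
theorem result : ∃ (Ω : Set ℂ) (u : ℂ → ℝ) (xhat xcheck : ℂ),
    IsOpen Ω ∧ Bornology.IsBounded Ω ∧ Convex ℝ Ω ∧ Ω.Nonempty ∧
    (∀ z ∈ Ω, conj z ∈ Ω ∧ -conj z ∈ Ω) ∧ (∀ c r, Ω ≠ Metric.ball c r) ∧ C2Boundary Ω ∧
    ContDiff ℝ 2 u ∧ (∀ z ∈ Ω, -Δ u z = 2) ∧ (∀ z ∈ frontier Ω, u z = 0) ∧
    xhat ∈ Gam Ω ∧ (∀ z ∈ Gam Ω, z ≠ xhat → ‖z‖ < ‖xhat‖) ∧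
    xcheck ∈ Gam Ω ∧ (∀ z ∈ Gam Ω, z ≠ xcheck → ‖xcheck‖ < ‖z‖) ∧
    (∃ p ∈ Gam Ω, ∀ z ∈ frontier Ω, ‖gradient u z‖ ≤ ‖gradient u p‖) ∧
    ∀ p ∈ Gam Ω, (∀ z ∈ frontier Ω, ‖gradient u z‖ ≤ ‖gradient u p‖) →
      dist p xhat < dist p xcheck := by
  obtain ⟨r₀, hr₀, h₀⟩ := exists_ray (e := 1) (by simp)
  obtain ⟨r₁, hr₁, h₁⟩ := exists_ray (e := Complex.I) (by simp)
  rw [mul_one] at h₀
  have s₀ : sq (r₀ : ℂ) = r₀ ^ 2 := by simp [sq]
  have d₀ : dd (r₀ : ℂ) = r₀ ^ 2 := by simp [dd]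
  have s₁ : sq ((r₁ : ℂ) * Complex.I) = r₁ ^ 2 := by simp [sq]
  have d₁ : dd ((r₁ : ℂ) * Complex.I) = -r₁ ^ 2 := by simp [dd]
  have b₀ := (frontier_sq h₀).2
  have b₁ := (frontier_sq h₁).2
  rw [s₀] at b₀
  rw [s₁] at b₁
  have u₀ : (1 - r₀ ^ 2) / 2 + ep * H (r₀ ^ 2) (r₀ ^ 2) = 0 := by
    have := (frontier_iff.1 h₀).2
    rwa [u_eq, s₀, d₀] at this
  have u₁ : (1 - r₁ ^ 2) / 2 + ep * H (r₁ ^ 2) (-r₁ ^ 2) = 0 := by
    have := (frontier_iff.1 h₁).2
    rwa [u_eq, s₁, d₁] at this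
  have epos : 0 < ep := by norm_num [ep]
  have m₀ : (r₀ : ℂ) ∈ Gam Om := ⟨h₀, by simpa using hr₀.le, by simp⟩
  have m₁ : (r₁ : ℂ) * Complex.I ∈ Gam Om := ⟨h₁, by simp, by simpa using hr₁.le⟩
  have near : ∀ z ∈ Gam Om, z ≠ (r₀ : ℂ) → ‖(r₀ : ℂ)‖ < ‖z‖ := by
    intro z hz hne
    refine norm_lt_of_sq ?_
    rw [s₀]
    by_contra hcon
    push Not at hcon
    have bz := (frontier_sq hz.1).2
    have uz := (frontier_iff.1 hz.1).2
    rw [u_eq] at uz
    have hle : (1 - r₀ ^ 2) / 2 + ep * H (r₀ ^ 2) (r₀ ^ 2) ≤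
        (1 - sq z) / 2 + ep * H (sq z) (sq z) := by
      rcases hcon.eq_or_lt with h | h
      · rw [h]
      · exact (axis_mono bz b₀ h).le
    rcases (dd_le z).eq_or_lt with h | h
    · rw [h] at uz
      have h2 : sq z = r₀ ^ 2 := by
        rcases hcon.eq_or_lt with h3 | h3
        · exact h3
        · have := axis_mono bz b₀ h3
          linarith
      have him : z.im = 0 := by
        unfold dd sq at h
        have : z.im ^ 2 = 0 := by linarith
        simpa using this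
      have hre : z.re = r₀ := by
        unfold sq at h2
        rw [him] at h2
        have h3 : z.re ^ 2 = r₀ ^ 2 := by linarith
        exact (sq_eq_sq₀ hz.2.1 hr₀.le).1 h3
      exact hne (Complex.ext (by simpa using hre) (by simpa using him))
    · have h2 := H_axis bz (neg_le_dd z) h
      have h3 : ep * H (sq z) (sq z) < ep * H (sq z) (dd z) := by gcongr
      linarith
  have far : ∀ z ∈ Gam Om, z ≠ (r₁ : ℂ) * Complex.I → ‖z‖ < ‖(r₁ : ℂ) * Complex.I‖ := by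
    intro z hz hne
    refine norm_lt_of_sq ?_
    rw [s₁]
    by_contra hcon
    push Not at hcon
    have bz := (frontier_sq hz.1).2
    have uz := (frontier_iff.1 hz.1).2
    rw [u_eq] at uz
    have hle : (1 - sq z) / 2 + ep * H (sq z) (-sq z) ≤
        (1 - r₁ ^ 2) / 2 + ep * H (r₁ ^ 2) (-r₁ ^ 2) := by
      rcases hcon.eq_or_lt with h | h
      · rw [h]
      · exact (axis_mono' b₁ bz h).le
    rcases (neg_le_dd z).eq_or_lt with h | h
    · rw [← h] at uz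
      have h2 : r₁ ^ 2 = sq z := by
        rcases hcon.eq_or_lt with h3 | h3
        · exact h3
        · have := axis_mono' b₁ bz h3
          linarith
      have hre : z.re = 0 := by
        unfold dd sq at h
        have : z.re ^ 2 = 0 := by linarith
        simpa using this
      have him : z.im = r₁ := by
        unfold sq at h2
        rw [hre] at h2
        have h3 : z.im ^ 2 = r₁ ^ 2 := by linarith
        exact (sq_eq_sq₀ hz.2.2 hr₁.le).1 h3
      exact hne (Complex.ext (by simpa using hre) (by simpa using him))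
    · have h2 := H_axis' h (dd_le z)
      have h3 : ep * H (sq z) (dd z) < ep * H (sq z) (-sq z) := by gcongr
      linarith
  have hne : (r₀ : ℂ) ≠ (r₁ : ℂ) * Complex.I := by
    intro h
    have := congrArg Complex.re h
    simp at this
    exact hr₀.ne' this
  have hlt : ‖(r₀ : ℂ)‖ < ‖(r₁ : ℂ) * Complex.I‖ := near _ m₁ hne.symm
  have hlt' : r₀ < r₁ := by
    simpa [abs_of_pos hr₀, abs_of_pos hr₁] using hlt
  refine ⟨Om, u, (r₁ : ℂ) * Complex.I, (r₀ : ℂ), Om_open, Om_bounded, Om_convex, ⟨0, zero_mem⟩,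
    ?_, ?_, ?_, contDiff_infty.1 u_smooth 2, ?_, fun z hz => (frontier_iff.1 hz).2, m₁, far, m₀,
    near, ?_, ?_⟩
  · intro z hz
    have h1 : ‖z‖ < 7 / 5 := mem_ball_iff.1 hz.1
    refine ⟨⟨mem_ball_iff.2 (by rwa [RCLike.norm_conj]), by rw [u_conj]; exact hz.2⟩,
      ⟨mem_ball_iff.2 (by rwa [norm_neg, RCLike.norm_conj]), by rw [u_neg, u_conj]; exact hz.2⟩⟩
  · intro c r h
    have hr : r ≠ 0 := by
      rintro rfl
      have := zero_mem
      rw [h] at this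
      simp at this
    have hf : frontier Om = Metric.sphere c r := by rw [h, frontier_ball _ hr]
    have n₀ : -(r₀ : ℂ) ∈ frontier Om := frontier_iff.2
      ⟨by rw [norm_neg]; exact (frontier_iff.1 h₀).1, by rw [u_neg]; exact (frontier_iff.1 h₀).2⟩
    have n₁ : -((r₁ : ℂ) * Complex.I) ∈ frontier Om := frontier_iff.2
      ⟨by rw [norm_neg]; exact (frontier_iff.1 h₁).1, by rw [u_neg]; exact (frontier_iff.1 h₁).2⟩
    have k₀ := h₀
    have k₁ := h₁
    rw [hf, Metric.mem_sphere, dist_eq_norm] at k₀ k₁ n₀ n₁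
    have q₀ : sq ((r₀ : ℂ) - c) = r ^ 2 := by rw [← norm_sq_eq, k₀]
    have q₁ : sq ((r₁ : ℂ) * Complex.I - c) = r ^ 2 := by rw [← norm_sq_eq, k₁]
    have q₂ : sq (-(r₀ : ℂ) - c) = r ^ 2 := by rw [← norm_sq_eq, n₀]
    have q₃ : sq (-((r₁ : ℂ) * Complex.I) - c) = r ^ 2 := by rw [← norm_sq_eq, n₁]
    simp [sq] at q₀ q₁ q₂ q₃
    have e1 : r₀ * c.re = 0 := by linarith
    have e2 : r₁ * c.im = 0 := by linarith
    have e3 : c.re = 0 := (mul_eq_zero.1 e1).resolve_left hr₀.ne'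
    have e4 : c.im = 0 := (mul_eq_zero.1 e2).resolve_left hr₁.ne'
    rw [e3, e4] at q₀ q₁
    nlinarith
  · intro x hx
    obtain ⟨h1, h2⟩ := frontier_iff.1 hx
    refine ⟨u, contDiff_infty.1 u_smooth 2, h2, ?_, ?_⟩
    · rw [(u_grad x).gradient]
      intro h3
      have h4 : x = (ep : ℂ) * conj (g1 x) := by
        have := congrArg (fun w => w + x) h3
        simpa using this.symm
      have h5 : ‖x‖ ≤ 1 / 2 := by
        rw [h4, norm_mul, RCLike.norm_conj, Complex.norm_real, Real.norm_of_nonneg epos.le]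
        have := norm_g1 x h1.le
        norm_num [ep]
        linarith
      have h6 := (abs_le.1 (frontier_sq hx).2).1
      rw [← norm_sq_eq] at h6
      nlinarith [norm_nonneg x]
    · have : ∀ᶠ y in 𝓝 x, y ∈ Metric.ball (0 : ℂ) (7 / 5) :=
        Metric.isOpen_ball.mem_nhds (mem_ball_iff.2 h1)
      filter_upwards [this] with y hy
      exact ⟨fun h => h.2, fun h => ⟨hy, h⟩⟩
  · intro z _
    rw [lap_u]
    norm_num
  · have hcomp : IsCompact (frontier Om) :=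
      Metric.isCompact_of_isClosed_isBounded isClosed_frontier
        (Om_bounded.closure.subset frontier_subset_closure)
    obtain ⟨z, hz, hmax⟩ := hcomp.exists_isMaxOn ⟨_, h₀⟩
      (grad_cont (contDiff_infty.1 u_smooth 1)).norm.continuousOn
    obtain ⟨p, hp, hpz⟩ := exists_mirror hz
    refine ⟨p, hp, fun w hw => ?_⟩
    rw [hpz]
    exact hmax hw
  · intro p hp hmax
    have h1 := max_dd hp.1 hmax
    have b := abs_le.1 (frontier_sq hp.1).2
    have b₀' := abs_le.1 b₀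
    have b₁' := abs_le.1 b₁
    rw [dist_eq_norm, dist_eq_norm]
    refine norm_lt_of_sq ?_
    obtain ⟨hx, hy⟩ := hp.2
    unfold dd at h1
    unfold sq at b
    have e1 : sq (p - (r₁ : ℂ) * Complex.I) = p.re ^ 2 + (p.im - r₁) ^ 2 := by simp [sq]
    have e2 : sq (p - (r₀ : ℂ)) = (p.re - r₀) ^ 2 + p.im ^ 2 := by simp [sq]
    rw [e1, e2]
    have hx1 : p.re ≤ 101 / 100 := by nlinarith
    have hy1 : p.im ≤ 101 / 100 := by nlinarith
    have h2 : 1 / 50 ≤ p.im - p.re := by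
      by_contra hcon
      push Not at hcon
      rcases le_total p.im p.re with h3 | h3
      · nlinarith
      · have h4 : (p.im - p.re) * (p.im + p.re) ≤ 1 / 50 * (202 / 100) := by
          gcongr <;> linarith
        nlinarith
    have h3 : 99 / 100 ≤ r₀ := by nlinarith
    have h4 : r₀ * p.im ≤ r₁ * p.im := by gcongr
    have h5 : 99 / 100 * (1 / 50) ≤ r₀ * (p.im - p.re) := by gcongr
    nlinarith

end

end Pool.Agent.Results.MP_f43ce7_an.MaxStress
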